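import Pool.Agent.Q74.BT.Stm2
import Pool.Agent.H395R2.G3.Count

/-!
# Project BT of helper74, part 2, job BM: the block lemma with many words
-/

set_option autoImplicit false

namespace Pool.Agent.Q176.BT

open Finset
open Pool.Agent.Q158.Pair (T)
open Pool.Agent.Q74.AR (oc)
open Pool.Agent.H395R2.G3 (exists_cap)
open Pool.Agent.H422R2.QA Pool.Agent.H320R2.PD Pool.Agent.H412R2

/-- the list of the connecting words -/
def LL : List (ℕ × ℕ) :=
  [(1,7), (5,4), (4,2), (1,6), (1,5), (1,4), (4,6), (4,7), (4,8), (2,7), (3,3), (4,9), (1,1),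
     (11,4), (8,4), (2,1), (4,10), (1,10), (5,9), (1,2), (3,1), (8,7), (5,7), (8,5), (2,2),
     (1,14), (2,4), (4,11), (1,11), (9,2), (5,3), (4,1), (1,3), (4,5), (2,6), (3,2), (11,3),
     (8,3), (1,9), (5,8), (8,6), (5,6), (1,13), (2,3), (9,1), (5,2), (4,4), (2,5), (8,2), (1,8),
     (5,5), (1,12), (5,1), (4,3)]

/-- three letters of any given size at least 16 connect -/
theorem conn_all {C : ℕ} (hC : 16 ≤ C) : Conn 3 C 3 C := by
  refine conn_of_list Nat.prime_three (by norm_num) le_rfl LL (by decide +kernel) ?_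
  have h : LL.all (fun p => decide (1 ≤ p.1 ∧ 1 ≤ p.2 ∧ p.1 + p.2 < 16)) = true := by
    decide +kernel
  rw [List.all_eq_true] at h ⊢
  intro p hp
  have h1 := h p hp
  rw [decide_eq_true_iff] at h1 ⊢
  omega

theorem T_eq : T = TZ 3 := by
  funext m
  unfold T TZ
  rfl

theorem T_two_pow (k : ℕ) (y : ℤ) : T (2 ^ (k + 1) * y) = 2 ^ k * y := by
  have h : (2 : ℤ) ^ (k + 1) * y = 2 * (2 ^ k * y) := by ring
  unfold T
  rw [h, if_pos (by omega)]
  omega

theorem oc_two_pow (k : ℕ) (y : ℤ) : oc k (2 ^ k * y) = 0 := by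
  induction k with
  | zero => rfl
  | succ k ih =>
    rw [Pool.Agent.Q74.AR.oc_succ, T_two_pow, ih, if_neg]
    have h : (2 : ℤ) ^ (k + 1) * y = 2 * (2 ^ k * y) := by ring
    omega

theorem oc_letter {e : ℕ} (he : 1 ≤ e) {b x : ℤ} (h : 3 * b + 1 = 2 ^ e * x) : oc e b = 1 := by
  obtain ⟨k, rfl⟩ : ∃ k, e = k + 1 := ⟨e - 1, by omega⟩
  have h3 : (2 : ℤ) ^ (k + 1) * x = 2 * (2 ^ k * x) := by ring
  have hodd : b % 2 = 1 := by omega
  have hT : T b = 2 ^ k * x := by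
    unfold T
    rw [if_neg (by omega), h, h3]
    omega
  rw [Pool.Agent.Q74.AR.oc_succ, if_pos hodd, hT, oc_two_pow]

theorem oc_Ep (w : List ℕ) (hw : ∀ e ∈ w, 1 ≤ e) (x : ℤ) (h : Vd 3 w x) :
    oc w.sum (Ep 3 w x) = w.length := by
  induction w generalizing x with
  | nil => rfl
  | cons e w ih =>
    rw [App.Vd_cons Nat.prime_three (by norm_num)] at h
    have h2 := App.Ep_cons (e := e) (w := w) Nat.prime_three (by norm_num) h.1
    have h3 := ih (fun a ha => hw a (List.mem_cons_of_mem _ ha)) _ h.2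
    have h4 := App.iter_Ep Nat.prime_three (by norm_num) w
      (fun a ha => hw a (List.mem_cons_of_mem _ ha)) _ h.2
    have h5 := App.Ep_single h.1
    rw [h2, List.sum_cons, List.length_cons, add_comm e, Pool.Agent.Q74.KP.oc_add, h3, T_eq, h4,
      oc_letter (hw e List.mem_cons_self) (by exact_mod_cast h5)]

open scoped Classical in
/-- the endpoints of many words with a common size -/
theorem ends {E n s S N : ℕ} {y : ℤ} (hS : s + 16 ≤ S) (hN : N ≤ Nq 3 E n s y) :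
    ∃ X : Finset ℤ, X.card = N ∧ ∀ x ∈ X, ¬ (3 : ℤ) ∣ x ∧ T^[S] x = y ∧ oc S x = n + 3 ∧
      |3 ^ (n + 3) * x - 2 ^ S * y| ≤ 3 ^ (n + 3) * 2 ^ S := by
  have h3 : (3 : ℕ).Prime := Nat.prime_three
  have h32 : (3 : ℕ) ≠ 2 := by norm_num
  obtain ⟨F, hF⟩ : ∃ F : Finset (List ℕ), F = (FW E n).filter (fun w => w.sum = s ∧ Lv 3 w y) :=
    ⟨_, rfl⟩
  have hFc : N ≤ F.card := by rw [hF]; exact hN
  have hmem : ∀ w ∈ F, w ∈ FW E n ∧ w.sum = s ∧ Lv 3 w y := fun w hw => by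
    rw [hF, Finset.mem_filter] at hw
    exact hw
  have hv : ∀ w : List ℕ, ∃ v : List ℕ, w ∈ F → (v ∈ FW (S - s) 3 ∧ v.sum = S - s ∧
      Lv 3 v (Ep 3 w y)) := by
    intro w
    by_cases hw : w ∈ F
    · obtain ⟨v, h1, h2, h3', _⟩ := conn_all (C := S - s) (by omega) (Ep 3 w y) 1
        (hmem w hw).2.2.2 (not_dvd_one h3)
      exact ⟨v, fun _ => ⟨h1, h2, h3'⟩⟩
    · exact ⟨[], fun h => absurd h hw⟩
  choose v hv using hv
  obtain ⟨Y, hY, hYc⟩ := Finset.exists_subset_card_eq hFc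
  have hword : ∀ w ∈ F, (∀ e ∈ w ++ v w, 1 ≤ e) ∧ (w ++ v w).length = n + 3 ∧
      (w ++ v w).sum = S ∧ Lv 3 (w ++ v w) y := by
    intro w hw
    obtain ⟨h1, h2, h4⟩ := hmem w hw
    obtain ⟨h5, h6, h7⟩ := hv w hw
    refine ⟨?_, ?_, ?_, ?_⟩
    · intro e he
      rcases List.mem_append.1 he with h | h
      · exact App.FW_pos h1 e h
      · exact App.FW_pos h5 e h
    · rw [List.length_append, App.FW_len h1, App.FW_len h5]
    · rw [List.sum_append, h2, h6]
      omega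
    · have hne : v w ≠ [] := by
        intro h
        have := App.FW_len h5
        rw [h] at this
        simp at this
      rw [Lv_append h3 h32 hne]
      exact ⟨h4, h7⟩
  have hinj : Set.InjOn (fun w => Ep 3 (w ++ v w) y) (Y : Set (List ℕ)) := by
    intro a ha b hb hab
    have ha' := hY (Finset.mem_coe.1 ha)
    have hb' := hY (Finset.mem_coe.1 hb)
    obtain ⟨a1, a2, a3, a4⟩ := hword a ha'
    obtain ⟨b1, b2, b3, b4⟩ := hword b hb'
    have h := App.Ep_inj h3 h32 a1 b1 (a2.trans b2.symm) (a3.trans b3.symm) a4.1 b4.1 hab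
    have hl : a.length = b.length := by
      rw [App.FW_len (hmem a ha').1, App.FW_len (hmem b hb').1]
    exact (List.append_inj h hl).1
  refine ⟨Y.image fun w => Ep 3 (w ++ v w) y, ?_, ?_⟩
  · rw [Finset.card_image_of_injOn hinj, hYc]
  · intro x hx
    rw [Finset.mem_image] at hx
    obtain ⟨w, hw, rfl⟩ := hx
    obtain ⟨w1, w2, w3, w4⟩ := hword w (hY hw)
    have i1 := App.iter_Ep h3 h32 _ w1 y w4.1
    have i2 := oc_Ep _ w1 y w4.1
    have i3 := Ep_spec w4.1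
    rw [w3] at i1 i2 i3
    rw [w2] at i2 i3
    refine ⟨by exact_mod_cast w4.2, by rw [T_eq]; exact i1, i2, ?_⟩
    have hW := Wq_le (q := 3) (by norm_num) (w ++ v w) (by norm_num)
    rw [w3, w2] at hW
    have hW' : (Wq 3 (w ++ v w) : ℤ) ≤ 2 ^ S * 3 ^ (n + 3) := by exact_mod_cast hW
    have hW0 : (0 : ℤ) ≤ (Wq 3 (w ++ v w) : ℤ) := by positivity
    have i4 : (3 : ℤ) ^ (n + 3) * Ep 3 (w ++ v w) y - 2 ^ S * y = -(Wq 3 (w ++ v w) : ℤ) := by
      have : ((3 : ℕ) : ℤ) = 3 := rfl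
      rw [this] at i3
      linarith
    rw [i4, abs_neg, abs_of_nonneg hW0]
    linarith

theorem bm : Pool.Agent.Q74.BT.S_BM := by
  intro r δ h0 h1 hF hδ
  obtain ⟨A, hA⟩ : ∃ A : ℝ, A = Pool.Agent.H395R2.G3.FF r / r := ⟨_, rfl⟩
  have hA0 : 0 < A := by rw [hA]; exact div_pos hF h0
  obtain ⟨d, hd⟩ : ∃ d : ℝ, d = min (δ / 8) (A / 8) := ⟨_, rfl⟩
  have hd0 : 0 < d := by rw [hd]; exact lt_min (by positivity) (by positivity)
  have hd1 : d ≤ δ / 8 := by rw [hd]; exact min_le_left _ _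
  have hd2 : d ≤ A / 8 := by rw [hd]; exact min_le_right _ _
  obtain ⟨E, hE, ha, hG⟩ := exists_cap h0 h1 hd0
  rw [← hA] at hG
  obtain ⟨ha1, ha2⟩ := abs_le.1 ha
  obtain ⟨hG1, hG2⟩ := abs_le.1 hG
  have hGpos : 0 < Gz 3 (1 - r) E := by linarith
  have hPr := main (q := 3) Nat.prime_three (by norm_num) prim_three (E := E) (m := 3) (C := 16)
    (by omega) (conn_three hE) (z := 1 - r) (by linarith) hGpos
  obtain ⟨n₀, hn₀⟩ := hPr d hd0
  obtain ⟨n₁, hn₁⟩ := exists_nat_ge (max (max ((3 * A + 1) * (2 / δ)) (2 / A))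
    (max (18 * (2 / δ)) (3 / (r * δ))))
  obtain ⟨n, hn⟩ : ∃ n : ℕ, n = max n₀ (max n₁ 1) := ⟨_, rfl⟩
  have hnn₀ : n₀ ≤ n := by rw [hn]; exact le_max_left _ _
  have hnn₁ : n₁ ≤ n := by rw [hn]; exact (le_max_left _ _).trans (le_max_right _ _)
  have hn1 : 1 ≤ n := by rw [hn]; exact (le_max_right _ _).trans (le_max_right _ _)
  have hnR : (1 : ℝ) ≤ n := by exact_mod_cast hn1
  have hmx : max (max ((3 * A + 1) * (2 / δ)) (2 / A)) (max (18 * (2 / δ)) (3 / (r * δ))) ≤ n :=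
    hn₁.trans (by exact_mod_cast hnn₁)
  have c1 : (3 * A + 1) * (2 / δ) ≤ n := (le_max_left _ _).trans ((le_max_left _ _).trans hmx)
  have c2 : 2 / A ≤ n := (le_max_right _ _).trans ((le_max_left _ _).trans hmx)
  have c3 : 18 * (2 / δ) ≤ n := (le_max_left _ _).trans ((le_max_right _ _).trans hmx)
  have c4 : 3 / (r * δ) ≤ n := (le_max_right _ _).trans ((le_max_right _ _).trans hmx)
  have c1' : 3 * A + 1 ≤ δ / 2 * n := by
    have := mul_le_mul_of_nonneg_left c1 (show 0 ≤ δ / 2 by positivity)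
    have e : δ / 2 * ((3 * A + 1) * (2 / δ)) = 3 * A + 1 := by field_simp
    linarith
  have c2' : 2 ≤ A * n := by
    rwa [div_le_iff₀ hA0, mul_comm] at c2
  have c3' : 18 ≤ δ / 2 * n := by
    have := mul_le_mul_of_nonneg_left c3 (show 0 ≤ δ / 2 by positivity)
    have e : δ / 2 * (18 * (2 / δ)) = 18 := by field_simp
    linarith
  have c4' : 3 / r ≤ δ * n := by
    have := mul_le_mul_of_nonneg_left c4 hδ.le
    have e : δ * (3 / (r * δ)) = 3 / r := by field_simp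
    linarith
  obtain ⟨S, hS⟩ : ∃ S : ℕ, S = ⌈(n : ℝ) / r + 2 * d * n⌉₊ + 16 := ⟨_, rfl⟩
  have hS1 : (n : ℝ) / r + 2 * d * n + 16 ≤ S := by
    rw [hS]
    push_cast
    linarith [Nat.le_ceil ((n : ℝ) / r + 2 * d * n)]
  have hS2 : (S : ℝ) ≤ (n : ℝ) / r + 2 * d * n + 17 := by
    rw [hS]
    push_cast
    have : 0 ≤ (n : ℝ) / r + 2 * d * n := by positivity
    linarith [Nat.ceil_lt_add_one this]
  obtain ⟨N, hN⟩ : ∃ N : ℕ, N = ⌈Real.exp ((A - δ) * ((n : ℝ) + 3))⌉₊ := ⟨_, rfl⟩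
  have hN1 : Real.exp ((A - δ) * ((n : ℝ) + 3)) ≤ N := by rw [hN]; exact Nat.le_ceil _
  have hN2 : (N : ℝ) ≤ Real.exp ((A - 2 * d) * n) := by
    have e1 : (N : ℝ) < Real.exp ((A - δ) * ((n : ℝ) + 3)) + 1 := by
      rw [hN]
      exact Nat.ceil_lt_add_one (Real.exp_pos _).le
    have e2 : 2 * Real.exp ((A - δ) * ((n : ℝ) + 3)) ≤ Real.exp ((A - 2 * d) * n) := by
      have e3 : (2 : ℝ) ≤ Real.exp 1 := by linarith [Real.add_one_le_exp (1 : ℝ)]
      calc 2 * Real.exp ((A - δ) * ((n : ℝ) + 3)) ≤ Real.exp 1 * Real.exp ((A - δ) * ((n : ℝ) + 3)) :=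
            mul_le_mul_of_nonneg_right e3 (Real.exp_pos _).le
        _ = Real.exp (1 + (A - δ) * ((n : ℝ) + 3)) := by rw [Real.exp_add]
        _ ≤ Real.exp ((A - 2 * d) * n) := by
            rw [Real.exp_le_exp]
            have : 2 * d * n ≤ δ / 4 * n := mul_le_mul_of_nonneg_right (by linarith) (by linarith)
            have h5 : 0 ≤ δ * n := by positivity
            nlinarith
    have e4 : 2 ≤ Real.exp ((A - 2 * d) * n) := by
      have h5 : 1 ≤ (A - 2 * d) * n := by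
        have : 2 * d * n ≤ A / 4 * n := mul_le_mul_of_nonneg_right (by linarith) (by linarith)
        nlinarith
      linarith [Real.add_one_le_exp ((A - 2 * d) * n)]
    linarith
  refine ⟨n + 3, S, N, by omega, ?_, ?_, ?_⟩
  · push_cast
    have e1 : ((n : ℝ) + 3) / r = n / r + 3 / r := by ring
    have h3r : 0 < 3 / r := by positivity
    have e2 : 2 * d * n ≤ δ / 4 * n := mul_le_mul_of_nonneg_right (by linarith) (by linarith)
    have h5 : 0 ≤ δ * n := by positivity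
    have h6 : 0 ≤ d * n := by positivity
    rw [e1, abs_le]
    constructor
    · nlinarith
    · nlinarith
  · push_cast
    rw [← hA]
    exact hN1
  · intro y hy
    obtain ⟨s, hs1, hs2⟩ := hn₀ n hnn₀ y (by exact_mod_cast hy)
    obtain ⟨hs3, hs4⟩ := abs_le.1 hs1
    refine ends (E := E) (s := s) ?_ ?_
    · have e1 : az (1 - r) E * n ≤ (1 / r + d) * n := mul_le_mul_of_nonneg_right (by linarith) (by linarith)
      have e2 : (s : ℝ) + 16 ≤ S := by
        have : (1 / r + d) * n = n / r + d * n := by ring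
        linarith
      exact_mod_cast e2
    · have e1 : (N : ℝ) ≤ (Nq 3 E n s y : ℝ) := by
        refine hN2.trans (le_trans (Real.exp_le_exp.2 ?_) hs2)
        exact mul_le_mul_of_nonneg_right (by linarith) (by linarith)
      exact_mod_cast e1

end Pool.Agent.Q176.BT
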